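import Pool.Agent.H39.VQ.Targets

/-!
# N1: differences of points of two planks in distinct directions
-/

set_option autoImplicit false

namespace Pool.Agent.H65.VQ

open Pool.Agent.H11.CV Pool.Agent.H39.VQ

theorem pf_N1 : V_N1 := by
  intro p k j ε s s' x y z x' y' z' hp hε hjk hss hnss h' h1 t ht
  obtain ⟨a1, a2, a3⟩ := h'
  obtain ⟨b1, b2, b3⟩ := h1
  have hjk1 : (p : ℤ) ^ (j + 1) ∣ (p : ℤ) ^ k := pow_dvd_pow _ (by omega)
  have hjk0 : (p : ℤ) ^ j ∣ (p : ℤ) ^ k := pow_dvd_pow _ (by omega)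
  have h2jk : (p : ℤ) ^ (2 * j) ∣ (p : ℤ) ^ (2 * k) := pow_dvd_pow _ (by omega)
  have hts' : (p : ℤ) ^ j ∣ t - s' := by
    have := dvd_add ht hss
    rwa [show t - s + (s - s') = t - s' by ring] at this
  have hst : (p : ℤ) ^ j ∣ s - t := by
    have := (dvd_neg (a := (p : ℤ) ^ j)).mpr ht
    rwa [neg_sub] at this
  have key : y - t * x = ε * (s - s') +
      ((y + y' - s * (x + x')) - (y' - s' * x') + (s - t) * (x + x' - ε) +
        (t - s') * (x' - ε)) := by ring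
  have hrem : (p : ℤ) ^ (j + 1) ∣ (y + y' - s * (x + x')) - (y' - s' * x') +
      (s - t) * (x + x' - ε) + (t - s') * (x' - ε) := by
    refine dvd_add (dvd_add (dvd_sub (hjk1.trans b2) (hjk1.trans a2)) ?_) ?_
    · rw [pow_succ]; exact mul_dvd_mul hst b1
    · rw [pow_succ]; exact mul_dvd_mul hts' a1
  have hpp : Prime (p : ℤ) := Nat.prime_iff_prime_int.mp hp
  refine ⟨?_, ?_, ?_, ?_⟩
  · have := dvd_sub b1 a1
    rwa [show x + x' - ε - (x' - ε) = x by ring] at this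
  · rw [key]
    exact dvd_add (hss.mul_left ε) ((pow_dvd_pow _ (Nat.le_succ j)).trans hrem)
  · intro hdiv
    rw [key] at hdiv
    have h3 : (p : ℤ) ^ (j + 1) ∣ ε * (s - s') := (dvd_add_left hrem).mp hdiv
    obtain ⟨c, hc⟩ := hss
    rw [hc, pow_succ, show ε * ((p : ℤ) ^ j * c) = (p : ℤ) ^ j * (ε * c) by ring] at h3
    have h4 : (p : ℤ) ∣ ε * c :=
      (mul_dvd_mul_iff_left (pow_ne_zero j hpp.ne_zero)).mp h3
    rcases hpp.dvd_or_dvd h4 with h5 | h5
    · exact hε h5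
    · apply hnss
      rw [hc, pow_succ]
      exact mul_dvd_mul_left _ h5
  · have e1 : z - 2 * t * y + t ^ 2 * x =
        ((z + z' - 2 * s * (y + y') + s ^ 2 * (x + x')) +
          2 * ((s - t) * (y + y' - s * (x + x'))) + ((t - s) * (t - s)) * (x + x')) -
        ((z' - 2 * s' * y' + s' ^ 2 * x') -
          2 * ((t - s') * (y' - s' * x')) + ((t - s') * (t - s')) * x') := by ring
    rw [e1]
    have h2j : (p : ℤ) ^ (2 * j) = (p : ℤ) ^ j * (p : ℤ) ^ j := by rw [two_mul, pow_add]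
    refine dvd_sub (dvd_add (dvd_add (h2jk.trans b3) ?_) ?_)
      (dvd_add (dvd_sub (h2jk.trans a3) ?_) ?_)
    · refine Dvd.dvd.mul_left ?_ 2
      rw [h2j]; exact mul_dvd_mul hst (hjk0.trans b2)
    · refine Dvd.dvd.mul_right ?_ _
      rw [h2j]; exact mul_dvd_mul ht ht
    · refine Dvd.dvd.mul_left ?_ 2
      rw [h2j]; exact mul_dvd_mul hts' (hjk0.trans a2)
    · refine Dvd.dvd.mul_right ?_ _
      rw [h2j]; exact mul_dvd_mul hts' hts'

end Pool.Agent.H65.VQ
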