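import Pool.Agent.H39.VQ.Targets

/-!
# N2: the quadratic form; planks centred at `0`
-/

set_option autoImplicit false

namespace Pool.Agent.H65.VQ

open Pool.Agent.H11.CV Pool.Agent.H39.VQ

theorem pf_N2 : V_N2 := by
  refine ⟨?_, ?_, ?_, ?_, ?_⟩
  · intro p k ε s x y z x' y' z' h' h1
    obtain ⟨a1, a2, a3⟩ := h'
    obtain ⟨b1, b2, b3⟩ := h1
    refine ⟨?_, ?_, ?_⟩
    · have := dvd_sub b1 a1
      rwa [show x + x' - ε - (x' - ε) = x - 0 by ring] at this
    · have := dvd_sub b2 a2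
      rwa [show y + y' - s * (x + x') - (y' - s * x') = y - s * x by ring] at this
    · have := dvd_sub b3 a3
      rwa [show z + z' - 2 * s * (y + y') + s ^ 2 * (x + x') - (z' - 2 * s * y' + s ^ 2 * x') =
        z - 2 * s * y + s ^ 2 * x by ring] at this
  · intro p k s x y z h
    obtain ⟨a1, a2, a3⟩ := h
    rw [show x * z - y ^ 2 = x * (z - 2 * s * y + s ^ 2 * x) - (y - s * x) ^ 2 by ring]
    refine dvd_sub (a3.mul_left x) ?_
    rw [mul_comm 2 k, pow_mul]
    exact pow_dvd_pow_of_dvd a2 2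
  · intro p j t x y z hp h hdiv
    obtain ⟨a1, a2, a3, a4⟩ := h
    have hpp : Prime (p : ℤ) := Nat.prime_iff_prime_int.mp hp
    have e1 : (y - t * x) ^ 2 = x * (z - 2 * t * y + t ^ 2 * x) - (x * z - y ^ 2) := by ring
    have h1 : (p : ℤ) ^ (2 * j + 1) ∣ (y - t * x) ^ 2 := by
      rw [e1]
      refine dvd_sub ?_ hdiv
      rw [pow_succ, mul_comm]
      exact mul_dvd_mul a1 a4
    obtain ⟨c, hc⟩ := a2
    rw [hc, show ((p : ℤ) ^ j * c) ^ 2 = (p : ℤ) ^ (2 * j) * c ^ 2 by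
      rw [mul_pow, ← pow_mul, mul_comm j 2], pow_succ] at h1
    have h2 : (p : ℤ) ∣ c ^ 2 := (mul_dvd_mul_iff_left (pow_ne_zero _ hpp.ne_zero)).mp h1
    have h3 : (p : ℤ) ∣ c := hpp.dvd_of_dvd_pow h2
    apply a3
    rw [hc, pow_succ]
    exact mul_dvd_mul_left _ h3
  · intro p j t t' x y z htt h
    obtain ⟨a1, a2, a3, a4⟩ := h
    have hx : (p : ℤ) ^ (j + 1) ∣ (t' - t) * x := by
      rw [pow_succ]; exact mul_dvd_mul htt a1
    have h2j : (p : ℤ) ^ (2 * j) = (p : ℤ) ^ j * (p : ℤ) ^ j := by rw [two_mul, pow_add]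
    have e1 : y - t' * x = (y - t * x) - (t' - t) * x := by ring
    refine ⟨a1, ?_, ?_, ?_⟩
    · rw [e1]; exact dvd_sub a2 (htt.mul_right x)
    · intro hdiv
      rw [e1] at hdiv
      exact a3 ((dvd_sub_left hx).mp hdiv)
    · rw [show z - 2 * t' * y + t' ^ 2 * x = (z - 2 * t * y + t ^ 2 * x) -
        2 * ((t' - t) * (y - t * x)) + ((t' - t) * (t' - t)) * x by ring]
      refine dvd_add (dvd_sub a4 ?_) ?_
      · refine Dvd.dvd.mul_left ?_ 2
        rw [h2j]; exact mul_dvd_mul htt a2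
      · refine Dvd.dvd.mul_right ?_ _
        rw [h2j]; exact mul_dvd_mul htt htt
  · intro p k s x y z
    unfold Pl Us
    have h1 : ex k k = 1 := by
      unfold ex
      rw [Nat.sub_self, mul_zero]
      rfl
    rw [h1, pow_one, sub_zero, show 2 * k - k = k by omega]

end Pool.Agent.H65.VQ
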